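import Mathlib
import Pool.Agent.W658.Cone

/-!
# The unitised cone over the Cuntz algebra is stably finite
-/

set_option autoImplicit false

open scoped InnerProductSpace
open Filter Topology

namespace Pool.Agent.Helper83K9.TI

open Pool.Agent.W658.Cone Pool.Agent.W658.TypeI

section

variable {A : Type} [CStarAlgebra A] {n : ℕ}

/-- the sum of the norms of the entries -/
noncomputable def sn (M : Matrix (Fin n) (Fin n) A) : ℝ := ∑ i, ∑ j, ‖M i j‖

lemma sn_nonneg (M : Matrix (Fin n) (Fin n) A) : 0 ≤ sn M :=
  Finset.sum_nonneg fun i _ => Finset.sum_nonneg fun j _ => norm_nonneg _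

lemma sn_mul (M N : Matrix (Fin n) (Fin n) A) : sn (M * N) ≤ sn M * sn N := by
  calc sn (M * N) ≤ ∑ i, ∑ j, ∑ k, ‖M i k‖ * ‖N k j‖ := by
        refine Finset.sum_le_sum fun i _ => Finset.sum_le_sum fun j _ => ?_
        rw [Matrix.mul_apply]
        exact (norm_sum_le _ _).trans (Finset.sum_le_sum fun k _ => norm_mul_le _ _)
    _ = ∑ i, ∑ k, ‖M i k‖ * ∑ j, ‖N k j‖ := by
        refine Finset.sum_congr rfl fun i _ => ?_
        rw [Finset.sum_comm]
        refine Finset.sum_congr rfl fun k _ => ?_
        rw [Finset.mul_sum]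
    _ ≤ ∑ i, ∑ k, ‖M i k‖ * sn N := by
        refine Finset.sum_le_sum fun i _ => Finset.sum_le_sum fun k _ => ?_
        refine mul_le_mul_of_nonneg_left ?_ (norm_nonneg _)
        exact Finset.single_le_sum (f := fun k => ∑ j, ‖N k j‖)
          (fun k _ => Finset.sum_nonneg fun j _ => norm_nonneg _) (Finset.mem_univ k)
    _ = sn M * sn N := by
        simp only [← Finset.sum_mul]
        rfl

lemma sn_eq_zero {M : Matrix (Fin n) (Fin n) A} (h : sn M = 0) : M = 0 := by
  ext i j
  have h1 := (Finset.sum_eq_zero_iff_of_nonneg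
    (fun i _ => Finset.sum_nonneg fun j _ => norm_nonneg (M i j))).1 h i (Finset.mem_univ _)
  have h2 := (Finset.sum_eq_zero_iff_of_nonneg
    (fun j _ => norm_nonneg (M i j))).1 h1 j (Finset.mem_univ _)
  simpa using h2

end

/-- the fibre of a matrix over the cone -/
noncomputable def fib {n : ℕ} (t : unitInterval) (v : Matrix (Fin n) (Fin n) CA) :
    Matrix (Fin n) (Fin n) BH := v.map (ev t)

lemma fib_mul {n : ℕ} (t : unitInterval) (v w : Matrix (Fin n) (Fin n) CA) :
    fib t (v * w) = fib t v * fib t w := by
  ext1 i j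
  simp only [fib, Matrix.map_apply, Matrix.mul_apply, map_sum, map_mul]

lemma ev_one (t : unitInterval) : ev t 1 = 1 := rfl

lemma fib_one {n : ℕ} (t : unitInterval) : fib t (1 : Matrix (Fin n) (Fin n) CA) = 1 := by
  ext1 i j
  simp only [fib, Matrix.map_apply, Matrix.one_apply]
  split_ifs
  · exact ev_one t
  · exact map_zero _

lemma fib_sub {n : ℕ} (t : unitInterval) (v w : Matrix (Fin n) (Fin n) CA) :
    fib t (v - w) = fib t v - fib t w := by
  ext1 i j
  simp only [fib, Matrix.map_apply, Matrix.sub_apply, map_sub]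

lemma fib_star {n : ℕ} (t : unitInterval) (v : Matrix (Fin n) (Fin n) CA) :
    fib t (star v) = star (fib t v) := by
  ext1 i j
  simp only [fib, Matrix.map_apply, Matrix.star_apply, map_star]

lemma fib_ext {n : ℕ} {v w : Matrix (Fin n) (Fin n) CA} (h : ∀ t, fib t v = fib t w) : v = w := by
  ext1 i j
  refine CA_ext fun t => ?_
  exact congrFun (congrFun (h t) i) j

/-- the counterexample is stably finite -/
theorem stablyFinite_CA : IsStablyFinite CA := by
  intro n v hv
  obtain ⟨e, he⟩ : ∃ e, e = 1 - v * star v := ⟨_, rfl⟩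
  have hee : e * e = e := by
    rw [he]
    have h1 : v * star v * (v * star v) = v * star v := by
      rw [mul_assoc, ← mul_assoc (star v), hv, one_mul]
    rw [sub_mul, mul_sub, mul_sub, one_mul, mul_one, one_mul, h1, sub_self, sub_zero]
  -- continuity
  have hcont : Continuous fun t : unitInterval => sn (fib t e) := by
    refine continuous_finsetSum _ fun i _ => continuous_finsetSum _ fun j _ => ?_
    exact ((e i j : CB).continuous).norm
  -- dichotomy
  have hdich : ∀ t, sn (fib t e) ≤ sn (fib t e) * sn (fib t e) := by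
    intro t
    have h1 := sn_mul (fib t e) (fib t e)
    rwa [← fib_mul, hee] at h1
  -- value at zero
  have h0 : fib 0 e = 0 := by
    choose c hc using fun i j => (v i j).2.2
    have hv0 : fib 0 v = (Matrix.of c).map (algebraMap ℂ BH) := by
      ext1 i j
      rw [Matrix.map_apply, Matrix.of_apply, Algebra.algebraMap_eq_smul_one]
      exact hc i j
    have hst : star ((Matrix.of c).map (algebraMap ℂ BH)) = (star (Matrix.of c)).map (algebraMap ℂ BH) := by
      ext1 i j
      simp only [Matrix.star_apply, Matrix.map_apply, algebraMap_star_comm]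
    have hmul : ∀ M N : Matrix (Fin n) (Fin n) ℂ,
        M.map (algebraMap ℂ BH) * N.map (algebraMap ℂ BH) = (M * N).map (algebraMap ℂ BH) := by
      intro M N
      rw [Matrix.map_mul]
    have h1 : fib 0 (star v * v) = 1 := by rw [hv, fib_one]
    rw [fib_mul, fib_star, hv0, hst, hmul] at h1
    have hone : (1 : Matrix (Fin n) (Fin n) ℂ).map (algebraMap ℂ BH) = 1 := by
      rw [Matrix.map_one _ (map_zero _) (map_one _)]
    have hinj : Function.Injective fun M : Matrix (Fin n) (Fin n) ℂ => M.map (algebraMap ℂ BH) := by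
      have hne : Nontrivial BH := by
        refine ⟨⟨1, 0, fun h => ?_⟩⟩
        have h2 := congrArg (fun T : BH => T xi) h
        have h3 : xi = 0 := h2
        have h4 := norm_xi
        rw [h3, norm_zero] at h4
        exact zero_ne_one h4
      intro M N hMN
      ext1 i j
      have := congrFun (congrFun hMN i) j
      simp only [Matrix.map_apply] at this
      exact (algebraMap ℂ BH).injective this
    have h2 : star (Matrix.of c) * Matrix.of c = 1 := hinj (by
      show Matrix.map _ _ = Matrix.map _ _
      rw [h1, hone])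
    have h3 : Matrix.of c * star (Matrix.of c) = 1 := mul_eq_one_comm.1 h2
    rw [he, fib_sub, fib_one, fib_mul, fib_star, hv0, hst, hmul, h3, hone, sub_self]
  have hall : ∀ t, sn (fib t e) = 0 := by
    intro t
    by_contra hne
    have hpos : 0 < sn (fib t e) := lt_of_le_of_ne (sn_nonneg _) (Ne.symm hne)
    have h1 : 1 ≤ sn (fib t e) := by
      have := hdich t
      by_contra hlt
      push Not at hlt
      nlinarith
    have h00 : sn (fib 0 e) = 0 := by
      rw [h0]
      simp [sn]
    have h2 : (1 / 2 : ℝ) ∈ (fun t : unitInterval => sn (fib t e)) '' Set.univ := by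
      refine isPreconnected_univ.intermediate_value (Set.mem_univ (0 : unitInterval))
        (Set.mem_univ t) hcont.continuousOn ⟨?_, ?_⟩
      · show sn (fib 0 e) ≤ 1 / 2
        rw [h00]; norm_num
      · show 1 / 2 ≤ sn (fib t e)
        linarith
    obtain ⟨s, -, hs⟩ := h2
    have h3 := hdich s
    have hs' : sn (fib s e) = 1 / 2 := hs
    rw [hs'] at h3
    norm_num at h3
  have hez : e = 0 := fib_ext fun t => by
    rw [sn_eq_zero (hall t)]
    ext1 i j
    simp only [fib, Matrix.map_apply, Matrix.zero_apply, map_zero]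
  rw [he, sub_eq_zero] at hez
  exact hez.symm

end Pool.Agent.Helper83K9.TI
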