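import Mathlib
import Pool.Agent.TH496.EI_Irr

/-!
# Irreducible representations of unital C*-algebras whose kernel is a maximal ideal
-/

set_option autoImplicit false

open scoped ComplexOrder InnerProductSpace
open UniformSpace Completion

noncomputable section

namespace Pool.Agent.Helper83K9.TI

open Pool.Agent.W658.Irrep Pool.Agent.TH496.EIirr

universe u

variable {C : Type u} [CStarAlgebra C]

/-- proper self-adjoint two-sided ideals -/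
structure PI (I : Submodule ℂ C) : Prop where
  left : ∀ a, ∀ x ∈ I, a * x ∈ I
  right : ∀ a, ∀ x ∈ I, x * a ∈ I
  star : ∀ x ∈ I, star x ∈ I
  one : (1 : C) ∉ I

lemma PI.dist {I : Submodule ℂ C} (h : PI I) {x : C} (hx : x ∈ I) : 1 ≤ ‖1 - x‖ := by
  by_contra hlt
  push Not at hlt
  have h1 : IsUnit x := by
    have := isUnit_one_sub_of_norm_lt_one (x := 1 - x) hlt
    rwa [sub_sub_cancel] at this
  obtain ⟨y, hy⟩ := h1.exists_right_inv
  apply h.one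
  rw [← hy]
  exact h.right y x hx

lemma exists_max [Nontrivial C] : ∃ I : Submodule ℂ C, PI I ∧ ∀ J, PI J → I ≤ J → J = I := by
  have hbot : PI (⊥ : Submodule ℂ C) := by
    refine ⟨?_, ?_, ?_, ?_⟩
    · intro a x hx
      rw [Submodule.mem_bot] at hx ⊢
      rw [hx, mul_zero]
    · intro a x hx
      rw [Submodule.mem_bot] at hx ⊢
      rw [hx, zero_mul]
    · intro x hx
      rw [Submodule.mem_bot] at hx ⊢
      rw [hx, star_zero]
    · rw [Submodule.mem_bot]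
      exact one_ne_zero
  obtain ⟨I, -, hI⟩ := zorn_le_nonempty₀ {I : Submodule ℂ C | PI I} (by
    intro c hc hchain J hJ
    refine ⟨sSup c, ?_, fun J' hJ' => le_sSup hJ'⟩
    have hmem : ∀ x, x ∈ sSup c ↔ ∃ I ∈ c, x ∈ I := fun x =>
      Submodule.mem_sSup_of_directed ⟨J, hJ⟩ hchain.directedOn
    refine ⟨?_, ?_, ?_, ?_⟩
    · intro a x hx
      obtain ⟨I, hI, hxI⟩ := (hmem x).1 hx
      exact (hmem _).2 ⟨I, hI, (hc hI).left a x hxI⟩
    · intro a x hx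
      obtain ⟨I, hI, hxI⟩ := (hmem x).1 hx
      exact (hmem _).2 ⟨I, hI, (hc hI).right a x hxI⟩
    · intro x hx
      obtain ⟨I, hI, hxI⟩ := (hmem x).1 hx
      exact (hmem _).2 ⟨I, hI, (hc hI).star x hxI⟩
    · intro hx
      obtain ⟨I, hI, hxI⟩ := (hmem _).1 hx
      exact (hc hI).one hxI) ⊥ hbot
  refine ⟨I, hI.prop, fun J hJ hIJ => ?_⟩
  exact le_antisymm (hI.le_of_ge hJ hIJ) hIJ

/-- the states that vanish on `I` -/
def StI (I : Submodule ℂ C) : Set (C → ℂ) :=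
  {f | (∀ a b, f (a + b) = f a + f b) ∧ (∀ (c : ℂ) a, f (c • a) = c * f a) ∧
    (∀ a, 0 ≤ f (star a * a)) ∧ f 1 = 1 ∧ (∀ a, ‖f a‖ ≤ ‖a‖) ∧ ∀ x ∈ I, f x = 0}

lemma StI_nonempty [Nontrivial C] {I : Submodule ℂ C} (hI : PI I) : (StI I).Nonempty := by
  obtain ⟨J, hJ⟩ : ∃ J : Submodule ℂ C, J = I.topologicalClosure := ⟨_, rfl⟩
  have hJc : IsClosed (J : Set C) := by rw [hJ]; exact I.isClosed_topologicalClosure
  have hdist : ∀ x ∈ J, 1 ≤ ‖1 - x‖ := by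
    intro x hx
    rw [hJ] at hx
    have hx' : x ∈ closure (I : Set C) := hx
    have hcl : IsClosed {x : C | 1 ≤ ‖1 - x‖} := isClosed_le continuous_const (by fun_prop)
    exact closure_minimal (fun y hy => hI.dist hy) hcl hx'
  have := hJc
  have hn1 : ‖(Submodule.Quotient.mk (1 : C) : C ⧸ J)‖ = 1 := by
    apply le_antisymm
    · refine (Submodule.Quotient.norm_mk_le J (1 : C)).trans ?_
      rw [CStarRing.norm_one]
    · refine le_of_forall_pos_le_add fun ε hε => ?_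
      obtain ⟨m, hm1, hm2⟩ := Submodule.Quotient.norm_mk_lt (S := J) (Submodule.Quotient.mk (1 : C) : C ⧸ J) hε
      have h3 : (1 : C) - m ∈ J := by
        have := (Submodule.Quotient.eq J).1 hm1
        have h4 := J.neg_mem this
        rwa [neg_sub] at h4
      have h5 := hdist _ h3
      rw [sub_sub_cancel] at h5
      linarith
  obtain ⟨l, hl, hl1⟩ := exists_dual_vector'' ℂ (Submodule.Quotient.mk (1 : C) : C ⧸ J)
  rw [hn1] at hl1
  let g : C →L[ℂ] ℂ := l.comp (J.mkQL)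
  have hg : ∀ x, g x = l (Submodule.Quotient.mk x) := fun x => rfl
  have hgx : ∀ x, ‖g x‖ ≤ ‖x‖ := by
    intro x
    rw [hg]
    refine (l.le_of_opNorm_le hl _).trans ?_
    rw [one_mul]
    exact Submodule.Quotient.norm_mk_le J x
  have hg1 : g 1 = 1 := by
    rw [hg, hl1]
    norm_num
  have hgn : ‖g‖ = 1 := by
    apply le_antisymm
    · exact g.opNorm_le_bound zero_le_one fun x => by rw [one_mul]; exact hgx x
    · have := g.le_opNorm 1
      rw [hg1, norm_one, CStarRing.norm_one, mul_one] at this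
      exact this
  refine ⟨g, fun a b => map_add g a b, fun c a => by rw [map_smul, smul_eq_mul],
    fun a => pos_of_norm g hgn hg1 a, hg1, hgx, fun x hx => ?_⟩
  rw [hg]
  have h0 : (Submodule.Quotient.mk x : C ⧸ J) = 0 := by
    rw [Submodule.Quotient.mk_eq_zero, hJ]
    exact I.le_topologicalClosure hx
  rw [h0, map_zero]

lemma StI_compact (I : Submodule ℂ C) : IsCompact (StI I) := by
  have h1 : IsCompact (Set.pi Set.univ (fun a : C => Metric.closedBall (0 : ℂ) ‖a‖)) :=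
    isCompact_univ_pi fun a => isCompact_closedBall _ _
  refine h1.of_isClosed_subset ?_ ?_
  · have h : StI I = {f : C → ℂ | ∀ a b, f (a + b) = f a + f b} ∩
        {f : C → ℂ | ∀ (c : ℂ) a, f (c • a) = c * f a} ∩
        {f : C → ℂ | ∀ a, 0 ≤ f (star a * a)} ∩
        {f : C → ℂ | f 1 = 1} ∩ {f : C → ℂ | ∀ a, ‖f a‖ ≤ ‖a‖} ∩
        {f : C → ℂ | ∀ x ∈ I, f x = 0} := by
      ext f
      constructor
      · rintro ⟨h1, h2, h3, h4, h5, h6⟩
        exact ⟨⟨⟨⟨⟨h1, h2⟩, h3⟩, h4⟩, h5⟩, h6⟩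
      · rintro ⟨⟨⟨⟨⟨h1, h2⟩, h3⟩, h4⟩, h5⟩, h6⟩
        exact ⟨h1, h2, h3, h4, h5, h6⟩
    rw [h]
    have hev : ∀ a : C, Continuous (fun f : C → ℂ => f a) := fun a => continuous_apply a
    refine IsClosed.inter (IsClosed.inter (IsClosed.inter (IsClosed.inter
      (IsClosed.inter ?_ ?_) ?_) ?_) ?_) ?_
    · simp only [Set.ofPred_forall]
      exact isClosed_iInter fun a => isClosed_iInter fun b =>
        isClosed_eq (hev _) ((hev a).add (hev b))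
    · simp only [Set.ofPred_forall]
      exact isClosed_iInter fun c => isClosed_iInter fun a =>
        isClosed_eq (hev _) (continuous_const.mul (hev a))
    · simp only [Set.ofPred_forall]
      exact isClosed_iInter fun a => isClosed_Ici.preimage (hev (star a * a))
    · exact isClosed_eq (hev _) continuous_const
    · simp only [Set.ofPred_forall]
      exact isClosed_iInter fun a => isClosed_le (hev a).norm continuous_const
    · simp only [Set.ofPred_forall]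
      exact isClosed_iInter fun a => isClosed_iInter fun _ => isClosed_eq (hev _) continuous_const
  · intro f hf a _
    rw [mem_closedBall_zero_iff]
    exact hf.2.2.2.2.1 a

section abs

variable {K : Type u} [NormedAddCommGroup K] [InnerProductSpace ℂ K] [CompleteSpace K]
  (ρ : C →⋆ₙₐ[ℂ] (K →L[ℂ] K)) (ξ : K)

theorem scalar_pos' {I : Submodule ℂ C} {φ : C → ℂ}
    (hφ : φ ∈ Set.extremePoints ℝ (StI I)) (hρ1 : ρ 1 = 1)
    (hρI : ∀ x ∈ I, ρ x = 0)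
    (hξ : ‖ξ‖ = 1) (hdense : ∀ x y : K, (∀ a : C, ⟪x, ρ a ξ⟫_ℂ = ⟪y, ρ a ξ⟫_ℂ) → x = y)
    (hφξ : ∀ a, φ a = ⟪ξ, ρ a ξ⟫_ℂ) (T : K →L[ℂ] K) (hTa : ∀ a x, T (ρ a x) = ρ a (T x))
    (hT0 : ∀ x, 0 ≤ ⟪T x, x⟫_ℂ) (hT1 : ∀ x, 0 ≤ ⟪x - T x, x⟫_ℂ) :
    ∃ t : ℂ, T = t • (1 : K →L[ℂ] K) := by
  obtain ⟨⟨hadd, hsm, hpos, hone, hn, hY⟩, hext⟩ := mem_extremePoints.mp hφ
  obtain ⟨R, hR⟩ : ∃ R : K →L[ℂ] K, R = 1 - T := ⟨_, rfl⟩
  have hRx : ∀ x, R x = x - T x := fun x => by rw [hR]; rfl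
  have hR0 : ∀ x, 0 ≤ ⟪R x, x⟫_ℂ := fun x => by rw [hRx]; exact hT1 x
  have hRa : ∀ a x, R (ρ a x) = ρ a (R x) := by
    intro a x
    rw [hRx, hRx, map_sub, hTa]
  obtain ⟨s1, hs1⟩ : ∃ s1 : ℝ, s1 = (⟪T ξ, ξ⟫_ℂ).re := ⟨_, rfl⟩
  have hs1C : ⟪T ξ, ξ⟫_ℂ = (s1 : ℂ) := by
    have := (Complex.le_def.1 (hT0 ξ)).2
    apply Complex.ext
    · rw [Complex.ofReal_re, hs1]
    · rw [Complex.ofReal_im]
      exact this.symm
  have hs2C : ⟪R ξ, ξ⟫_ℂ = ((1 - s1 : ℝ) : ℂ) := by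
    rw [hRx, inner_sub_left, hs1C, inner_self_eq_norm_sq_to_K, hξ]
    push_cast
    ring
  have hs10 : 0 ≤ s1 := by
    have := hT0 ξ
    rw [hs1C] at this
    exact Complex.zero_le_real.1 this
  have hs20 : 0 ≤ 1 - s1 := by
    have := hR0 ξ
    rw [hs2C] at this
    exact Complex.zero_le_real.1 this
  -- it is enough to know `T ξ`
  have hfin : ∀ t : ℝ, T ξ = (t : ℂ) • ξ → ∃ t : ℂ, T = t • (1 : K →L[ℂ] K) := by
    intro t ht
    refine ⟨t, ?_⟩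
    ext z
    apply hdense
    intro a
    have e1 : ((t : ℂ) • (1 : K →L[ℂ] K)) z = (t : ℂ) • z := rfl
    rw [e1, symm_of_pos T hT0, hTa, ht, map_smul, inner_smul_right, inner_smul_left,
      Complex.conj_ofReal]
  by_cases h0 : s1 = 0
  · refine hfin 0 ?_
    rw [Complex.ofReal_zero, zero_smul]
    apply zero_of_pos T hT0
    rw [hs1C, h0, Complex.ofReal_zero]
  by_cases h1 : 1 - s1 = 0
  · refine hfin 1 ?_
    have h2 := zero_of_pos R hR0 ξ (by rw [hs2C, h1, Complex.ofReal_zero])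
    rw [hRx] at h2
    rw [Complex.ofReal_one, one_smul]
    exact (sub_eq_zero.1 h2).symm
  have hp1 : 0 < s1 := lt_of_le_of_ne hs10 (Ne.symm h0)
  have hp2 : 0 < 1 - s1 := lt_of_le_of_ne hs20 (Ne.symm h1)
  have hc1 : (s1 : ℂ) ≠ 0 := by exact_mod_cast hp1.ne'
  have hc2 : ((1 - s1 : ℝ) : ℂ) ≠ 0 := by exact_mod_cast hp2.ne'
  obtain ⟨x1, x2, x3, x4, x5⟩ := key2 ρ ξ hρ1 T hTa hT0 s1 hp1 hs1C
  obtain ⟨y1, y2, y3, y4, y5⟩ := key2 ρ ξ hρ1 R hRa hR0 (1 - s1) hp2 hs2C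
  have hcomb : ∀ a, (s1 : ℂ) * ((s1 : ℂ)⁻¹ * ⟪T ξ, ρ a ξ⟫_ℂ) +
      ((1 - s1 : ℝ) : ℂ) * (((1 - s1 : ℝ) : ℂ)⁻¹ * ⟪R ξ, ρ a ξ⟫_ℂ) = φ a := by
    intro a
    rw [mul_inv_cancel_left₀ hc1, mul_inv_cancel_left₀ hc2, hφξ, hRx, inner_sub_left]
    ring
  have w1 : ∀ x ∈ I, (s1 : ℂ)⁻¹ * ⟪T ξ, ρ x ξ⟫_ℂ = 0 := by
    intro x hx
    rw [hρI x hx]
    simp
  have w2 : ∀ x ∈ I, ((1 - s1 : ℝ) : ℂ)⁻¹ * ⟪R ξ, ρ x ξ⟫_ℂ = 0 := by
    intro x hx
    rw [hρI x hx]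
    simp
  have hseg : φ ∈ openSegment ℝ (fun a => (s1 : ℂ)⁻¹ * ⟪T ξ, ρ a ξ⟫_ℂ)
      (fun a => ((1 - s1 : ℝ) : ℂ)⁻¹ * ⟪R ξ, ρ a ξ⟫_ℂ) := by
    refine ⟨s1, 1 - s1, hp1, hp2, by ring, ?_⟩
    funext a
    rw [← hcomb a]
    simp only [Pi.add_apply, Pi.smul_apply, Complex.real_smul]
  have h6 := (hext _ ⟨x1, x2, x3, x4, x5, w1⟩ _ ⟨y1, y2, y3, y4, y5, w2⟩ hseg).1
  refine hfin s1 ?_
  apply hdense
  intro a
  have h7 := congrFun h6 a
  rw [inner_smul_left, Complex.conj_ofReal, ← hφξ, ← h7, mul_inv_cancel_left₀ hc1]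

end abs

/-- a unital C*-algebra has an irreducible representation that vanishes on a given proper
ideal -/
theorem exists_rep' [Nontrivial C] {I : Submodule ℂ C} (hI : PI I) :
    ∃ (K : Type u) (_ : NormedAddCommGroup K)
    (_ : InnerProductSpace ℂ K) (_ : CompleteSpace K) (ρ : C →⋆ₙₐ[ℂ] (K →L[ℂ] K)) (ξ : K),
    ρ 1 = 1 ∧ ‖ξ‖ = 1 ∧ (∀ x ∈ I, ρ x = 0) ∧
    ∀ T : K →L[ℂ] K, (∀ a, T * ρ a = ρ a * T) → ∃ t : ℂ, T = t • (1 : K →L[ℂ] K) := by
  obtain ⟨φ, hφ⟩ := (StI_compact I).extremePoints_nonempty (StI_nonempty hI)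
  obtain ⟨⟨hadd, hsm, hpos, hone, hn, hY⟩, hext⟩ := mem_extremePoints.mp hφ
  let _ := CStarAlgebra.spectralOrder C
  have _ := CStarAlgebra.spectralOrderedRing C
  let f : C →ₚ[ℂ] ℂ := PositiveLinearMap.mk₀
    ({ toFun := φ, map_add' := hadd, map_smul' := fun c a => hsm c a } : C →ₗ[ℂ] ℂ) (by
      intro x hx
      obtain ⟨y, rfl⟩ := CStarAlgebra.nonneg_iff_eq_star_mul_self.1 hx
      exact hpos y)
  have hf : ∀ x, f x = φ x := fun x => rfl
  let ρ : C →⋆ₙₐ[ℂ] (f.GNS →L[ℂ] f.GNS) := f.gnsNonUnitalStarAlgHom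
  let ξ : f.GNS := (f.toPreGNS (1 : C) : f.GNS)
  have hρ : ∀ a b : C, ρ a (f.toPreGNS b : f.GNS) = (f.toPreGNS (a * b) : f.GNS) := by
    intro a b
    show f.gnsNonUnitalStarAlgHom a (f.toPreGNS b : f.GNS) = _
    rw [PositiveLinearMap.gnsNonUnitalStarAlgHom_apply_coe]
    rfl
  have hin : ∀ a b : C, ⟪(f.toPreGNS a : f.GNS), (f.toPreGNS b : f.GNS)⟫_ℂ = φ (star a * b) := by
    intro a b
    rw [UniformSpace.Completion.inner_coe, PositiveLinearMap.preGNS_inner_def]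
    rfl
  have hρξ : ∀ a, ρ a ξ = (f.toPreGNS a : f.GNS) := by
    intro a
    rw [hρ, mul_one]
  have hdense : ∀ x y : f.GNS, (∀ a : C, ⟪x, ρ a ξ⟫_ℂ = ⟪y, ρ a ξ⟫_ℂ) → x = y := by
    intro x y h
    have h2 : ∀ z : f.GNS, ⟪x, z⟫_ℂ = ⟪y, z⟫_ℂ := by
      intro z
      induction z using UniformSpace.Completion.induction_on with
      | hp => exact isClosed_eq (by fun_prop) (by fun_prop)
      | ih z =>
        have := h (f.ofPreGNS z)
        rw [hρξ] at this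
        exact this
    exact ext_inner_right ℂ h2
  have hρ1 : ρ 1 = 1 := by
    ext z
    induction z using UniformSpace.Completion.induction_on with
    | hp => exact isClosed_eq (by fun_prop) (by fun_prop)
    | ih z =>
      have := hρ 1 (f.ofPreGNS z)
      rw [one_mul] at this
      exact this
  have hξ : ‖ξ‖ = 1 := by
    have h2 := hin 1 1
    rw [star_one, one_mul, hone] at h2
    have h3 : ⟪ξ, ξ⟫_ℂ = 1 := h2
    rw [inner_self_eq_norm_sq_to_K] at h3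
    have h4 : ((‖ξ‖ ^ 2 : ℝ) : ℂ) = ((1 : ℝ) : ℂ) := by
      push_cast
      exact h3
    have h5 : ‖ξ‖ ^ 2 = 1 := Complex.ofReal_injective h4
    nlinarith [norm_nonneg ξ]
  have hφξ : ∀ a, φ a = ⟪ξ, ρ a ξ⟫_ℂ := by
    intro a
    rw [hρξ, hin, star_one, one_mul]
  have hρI : ∀ x ∈ I, ρ x = 0 := by
    intro x hx
    ext z
    induction z using UniformSpace.Completion.induction_on with
    | hp => exact isClosed_eq (by fun_prop) (by fun_prop)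
    | ih z =>
      rw [show ((z : f.GNS)) = (f.toPreGNS (f.ofPreGNS z) : f.GNS) from rfl, hρ]
      have h1 : ⟪(f.toPreGNS (x * f.ofPreGNS z) : f.GNS),
          (f.toPreGNS (x * f.ofPreGNS z) : f.GNS)⟫_ℂ = 0 := by
        rw [hin]
        exact hY _ (hI.left _ _ (hI.right _ _ hx))
      rw [inner_self_eq_zero] at h1
      exact h1
  refine ⟨f.GNS, inferInstance, inferInstance, inferInstance, ρ, ξ, hρ1, hξ, hρI, ?_⟩
  exact scalar_all ρ (fun T hTa hT0 hT1 =>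
    scalar_pos' ρ ξ hφ hρ1 hρI hξ hdense hφξ T hTa hT0 hT1)

/-- there is an irreducible representation whose kernel is a maximal ideal -/
theorem exists_rep_max [Nontrivial C] :
    ∃ (K : Type u) (_ : NormedAddCommGroup K)
    (_ : InnerProductSpace ℂ K) (_ : CompleteSpace K) (ρ : C →⋆ₙₐ[ℂ] (K →L[ℂ] K)) (ξ : K),
    ρ 1 = 1 ∧ ‖ξ‖ = 1 ∧
    (∀ T : K →L[ℂ] K, (∀ a, T * ρ a = ρ a * T) → ∃ t : ℂ, T = t • (1 : K →L[ℂ] K)) ∧
    ∀ J : Submodule ℂ C, (∀ a, ∀ x ∈ J, a * x ∈ J) → (∀ a, ∀ x ∈ J, x * a ∈ J) →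
      (∀ x ∈ J, star x ∈ J) → (∀ x, ρ x = 0 → x ∈ J) → (∃ x ∈ J, ρ x ≠ 0) → (1 : C) ∈ J := by
  obtain ⟨I, hI, hmax⟩ := exists_max (C := C)
  obtain ⟨K, i1, i2, i3, ρ, ξ, hρ1, hξ, hρI, hc⟩ := exists_rep' hI
  refine ⟨K, i1, i2, i3, ρ, ξ, hρ1, hξ, hc, ?_⟩
  intro J h1 h2 h3 h4 h5
  by_contra h6
  have h7 := hmax J ⟨h1, h2, h3, h6⟩ (fun x hx => h4 x (hρI x hx))
  obtain ⟨x, hx, hx0⟩ := h5
  rw [h7] at hx
  exact hx0 (hρI x hx)

end Pool.Agent.Helper83K9.TI
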