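import Mathlib
import Pool.Agent.Helper83K9.TI.MaxIrr
import Pool.Agent.Helper83K9.TI.Fin

/-!
# The unitised cone over the Cuntz algebra is not locally approximable by type I algebras
-/

set_option autoImplicit false

open scoped InnerProductSpace
open Filter Topology

namespace Pool.Agent.Helper83K9.TI

open Pool.Agent.W658.Cone Pool.Agent.W658.TypeI

/-! ### finite dimensional spaces -/

/-- in finite dimension there are no two operators which are almost isometries with almost
complementary ranges -/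
theorem fin_dim {K : Type} [NormedAddCommGroup K] [InnerProductSpace ℂ K] [CompleteSpace K]
    [FiniteDimensional ℂ K] [Nontrivial K] (x y : K →L[ℂ] K)
    (hx : ‖star x * x - 1‖ ≤ 1 / 10) (hy : ‖star y * y - 1‖ ≤ 1 / 10)
    (hxy : ‖x * star x + y * star y - 1‖ ≤ 1 / 10) : False := by
  let b := stdOrthonormalBasis ℂ K
  let tr : (K →L[ℂ] K) →ₗ[ℂ] ℂ := (LinearMap.trace ℂ K).comp (ContinuousLinearMap.coeLM ℂ)
  have htr : ∀ T, tr T = LinearMap.trace ℂ K (T : K →ₗ[ℂ] K) := fun T => rfl
  have hmul : ∀ S T : K →L[ℂ] K, tr (S * T) = tr (T * S) := by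
    intro S T
    rw [htr, htr]
    exact LinearMap.trace_mul_comm ℂ (S : K →ₗ[ℂ] K) (T : K →ₗ[ℂ] K)
  have hbd : ∀ T : K →L[ℂ] K, ‖tr T‖ ≤ Module.finrank ℂ K * ‖T‖ := by
    intro T
    rw [htr, LinearMap.trace_eq_sum_inner _ b]
    refine (norm_sum_le _ _).trans ?_
    calc ∑ i, ‖⟪b i, (T : K →ₗ[ℂ] K) (b i)⟫_ℂ‖ ≤ ∑ _i : Fin (Module.finrank ℂ K), ‖T‖ := by
          refine Finset.sum_le_sum fun i _ => ?_
          refine (norm_inner_le_norm _ _).trans ?_
          rw [b.norm_eq_one, one_mul]
          refine (T.le_opNorm _).trans ?_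
          rw [b.norm_eq_one, mul_one]
      _ = _ := by simp
  have hone : tr 1 = Module.finrank ℂ K := by
    rw [htr]
    exact LinearMap.trace_one ℂ K
  obtain ⟨N, hN⟩ : ∃ N : ℝ, N = Module.finrank ℂ K := ⟨_, rfl⟩
  have hNpos : 0 < N := by
    rw [hN]
    exact_mod_cast Module.finrank_pos
  have h1 := hbd (star x * x - 1)
  have h2 := hbd (star y * y - 1)
  have h3 := hbd (x * star x + y * star y - 1)
  rw [← hN] at h1 h2 h3
  have e1 : tr (star x * x - 1) + tr (star y * y - 1) - tr (x * star x + y * star y - 1) =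
      -(N : ℂ) := by
    rw [map_sub, map_sub, map_sub, map_add, hmul x, hmul y, hone, hN]
    push_cast
    ring
  have h4 : ‖-(N : ℂ)‖ ≤ N * (1 / 10) + N * (1 / 10) + N * (1 / 10) := by
    rw [← e1]
    refine (norm_sub_le _ _).trans (add_le_add ((norm_add_le _ _).trans (add_le_add ?_ ?_)) ?_)
    · exact h1.trans (by gcongr)
    · exact h2.trans (by gcongr)
    · exact h3.trans (by gcongr)
  rw [norm_neg, Complex.norm_real, Real.norm_of_nonneg hNpos.le] at h4
  linarith

/-! ### the main argument -/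

/-- the rank one projection -/
noncomputable def rk {K : Type} [NormedAddCommGroup K] [InnerProductSpace ℂ K] (ξ : K) :
    K →L[ℂ] K := (innerSL ℂ ξ).smulRight ξ

lemma rk_apply {K : Type} [NormedAddCommGroup K] [InnerProductSpace ℂ K] (ξ x : K) :
    rk ξ x = ⟪ξ, x⟫_ℂ • ξ := rfl

lemma rk_compact {K : Type} [NormedAddCommGroup K] [InnerProductSpace ℂ K] (ξ : K) :
    IsCompactOperator (rk ξ) := by
  have h1 : IsCompactOperator (fun x : K => (innerSL ℂ ξ) x) :=
    isCompactOperator_of_locallyCompactSpace_dom (innerSL ℂ ξ)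
  have h2 := h1.clm_comp ((ContinuousLinearMap.id ℂ ℂ).smulRight ξ)
  exact h2

lemma rk_star {K : Type} [NormedAddCommGroup K] [InnerProductSpace ℂ K] [CompleteSpace K] (ξ : K) :
    star (rk ξ) = rk ξ := by
  rw [ContinuousLinearMap.star_eq_adjoint, eq_comm, ContinuousLinearMap.eq_adjoint_iff]
  intro x y
  rw [rk_apply, rk_apply, inner_smul_left, inner_smul_right, inner_conj_symm]
  ring

/-- The general form: `B` is a type I algebra, `j` is a homomorphism from `B` to a unital C*-algebra
`D` with dense range; then there are no almost isometries with almost complementary ranges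
in `D`. -/
theorem core {B D : Type} [NonUnitalRing B] [StarRing B] [Module ℂ B] [CStarAlgebra D] [Nontrivial D]
    (hB : IsTypeI B) (j : B →⋆ₙₐ[ℂ] D) (hj : DenseRange j) (x y : D)
    (hx : ‖star x * x - 1‖ ≤ 1 / 10) (hy : ‖star y * y - 1‖ ≤ 1 / 10)
    (hxy : ‖x * star x + y * star y - 1‖ ≤ 1 / 10) : False := by
  obtain ⟨K, i1, i2, i3, ρ, ξ, hρ1, hξ, hcomm, hJ⟩ := exists_rep_max (C := D)
  have hξ0 : ξ ≠ 0 := by
    intro h
    rw [h, norm_zero] at hξ
    exact zero_ne_one hξ
  have hρc : Continuous ρ := AddMonoidHomClass.continuous_of_bound ρ 1 fun d => by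
    rw [one_mul]
    exact NonUnitalStarAlgHom.norm_apply_le ρ d
  -- the representation of `B`
  let π : B →⋆ₙₐ[ℂ] (K →L[ℂ] K) := ρ.comp j
  have hπ : ∀ b, π b = ρ (j b) := fun b => rfl
  have hirr : IsIrreducible π := by
    refine ⟨?_, ?_⟩
    · intro h0
      have h1 : ∀ d, ρ d = 0 := by
        intro d
        refine hj.induction_on (p := fun d => ρ d = 0) d (isClosed_eq hρc continuous_const) ?_
        intro b
        rw [← hπ, h0]
        rfl
      have h2 := h1 1
      rw [hρ1] at h2
      have h3 := congrArg (fun T : K →L[ℂ] K => T ξ) h2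
      exact hξ0 h3
    · intro U hUc hU
      have hinv : ∀ d, ∀ x ∈ U, ρ d x ∈ U := by
        intro d x hx
        refine hj.induction_on (p := fun d => ρ d x ∈ U) d ?_ ?_
        · exact hUc.preimage (by fun_prop : Continuous fun d => ρ d x)
        · intro b
          exact hU b x hx
      have : CompleteSpace U := hUc.completeSpace_coe
      have hadj : ∀ (c : D) x y, ⟪ρ c x, y⟫_ℂ = ⟪x, ρ (star c) y⟫_ℂ := by
        intro c x y
        rw [map_star, ContinuousLinearMap.star_eq_adjoint, ContinuousLinearMap.adjoint_inner_right]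
      have hinv2 : ∀ d, ∀ v ∈ Uᗮ, ρ d v ∈ Uᗮ := by
        intro c v hv
        rw [Submodule.mem_orthogonal'] at hv ⊢
        intro u hu
        rw [hadj]
        exact hv _ (hinv _ u hu)
      obtain ⟨t, ht⟩ := hcomm U.starProjection (by
        intro c
        ext x
        show U.starProjection (ρ c x) = ρ c (U.starProjection x)
        refine Submodule.eq_starProjection_of_mem_orthogonal
          (hinv c _ (U.starProjection_apply_mem x)) ?_
        rw [← map_sub]
        exact hinv2 c _ (U.sub_starProjection_mem_orthogonal x))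
      by_cases hbot : U = ⊥
      · exact Or.inl hbot
      · refine Or.inr ?_
        obtain ⟨u, hu, hu0⟩ := (Submodule.ne_bot_iff U).1 hbot
        have h1 : U.starProjection u = u := U.starProjection_eq_self_iff.2 hu
        rw [ht] at h1
        have h2 : t • u = u := h1
        have h3 : t = 1 := by
          have : (t - 1) • u = 0 := by rw [sub_smul, h2, one_smul, sub_self]
          rcases smul_eq_zero.1 this with h | h
          · exact sub_eq_zero.1 h
          · exact absurd h hu0
        rw [eq_top_iff]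
        intro z _
        have h4 : U.starProjection z = z := by
          rw [ht, h3, one_smul]
          rfl
        exact U.starProjection_eq_self_iff.1 h4
  obtain ⟨b, hb⟩ := hB K π hirr (rk ξ) (rk_compact ξ)
  -- the ideal of the elements which are mapped to compact operators
  let J : Submodule ℂ D :=
    { carrier := {x | IsCompactOperator (ρ x) ∧ IsCompactOperator (ρ (star x))}
      zero_mem' := by
        constructor
        · rw [map_zero]; exact isCompactOperator_zero
        · rw [star_zero, map_zero]; exact isCompactOperator_zero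
      add_mem' := by
        rintro x y ⟨h1, h2⟩ ⟨h3, h4⟩
        constructor
        · rw [map_add]; exact h1.add h3
        · rw [star_add, map_add]; exact h2.add h4
      smul_mem' := by
        rintro c x ⟨h1, h2⟩
        constructor
        · rw [map_smul]; exact h1.smul c
        · rw [star_smul, map_smul]; exact h2.smul _ }
  have hmemJ : ∀ x, x ∈ J ↔ IsCompactOperator (ρ x) ∧ IsCompactOperator (ρ (star x)) :=
    fun x => Iff.rfl
  have h1J : (1 : D) ∈ J := by
    refine hJ J ?_ ?_ ?_ ?_ ⟨j b, ?_, ?_⟩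
    · rintro a x ⟨h1, h2⟩
      refine ⟨?_, ?_⟩
      · rw [map_mul]
        exact h1.clm_comp (ρ a)
      · rw [star_mul, map_mul]
        exact h2.comp_clm (ρ (star a))
    · rintro a x ⟨h1, h2⟩
      refine ⟨?_, ?_⟩
      · rw [map_mul]
        exact h1.comp_clm (ρ a)
      · rw [star_mul, map_mul]
        exact h2.clm_comp (ρ (star a))
    · rintro x ⟨h1, h2⟩
      exact ⟨h2, by rw [star_star]; exact h1⟩
    · intro x hx
      rw [hmemJ, map_star, hx, star_zero]
      exact ⟨isCompactOperator_zero, isCompactOperator_zero⟩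
    · rw [hmemJ, map_star, ← hπ, hb, rk_star]
      exact ⟨rk_compact ξ, rk_compact ξ⟩
    · rw [← hπ, hb]
      intro h
      have h2 := congrArg (fun T : K →L[ℂ] K => T ξ) h
      have h3 : rk ξ ξ = 0 := h2
      rw [rk_apply, inner_self_eq_norm_sq_to_K, hξ] at h3
      simp at h3
      exact hξ0 h3
  have hcomp : IsCompactOperator (id : K → K) := by
    have := h1J.1
    rw [hρ1] at this
    exact this
  have hfd : FiniteDimensional ℂ K := FiniteDimensional.of_isCompactOperator_id hcomp
  have hnt : Nontrivial K := ⟨⟨ξ, 0, hξ0⟩⟩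
  have hle : ∀ d : D, ‖ρ d‖ ≤ ‖d‖ := fun d => NonUnitalStarAlgHom.norm_apply_le ρ d
  refine fin_dim (ρ x) (ρ y) ?_ ?_ ?_
  · have := (hle (star x * x - 1)).trans hx
    rwa [map_sub, map_mul, map_star, hρ1] at this
  · have := (hle (star y * y - 1)).trans hy
    rwa [map_sub, map_mul, map_star, hρ1] at this
  · have := (hle (x * star x + y * star y - 1)).trans hxy
    rwa [map_sub, map_add, map_mul, map_mul, map_star, map_star, hρ1] at this

/-! ### closed subalgebras of operators -/

lemma one_mem_of_close (D : NonUnitalStarSubalgebra ℂ BH) (hD : IsClosed (D : Set BH)) (x : BH)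
    (hx : x ∈ D) (h : ‖1 - x‖ < 1) : (1 : BH) ∈ D := by
  have h1 : ∀ n : ℕ, 1 - (1 - x) ^ n ∈ D := by
    intro n
    induction n with
    | zero =>
      rw [pow_zero, sub_self]
      exact zero_mem _
    | succ n ih =>
      have : 1 - (1 - x) ^ (n + 1) = (1 - (1 - x) ^ n) + (x - (1 - (1 - x) ^ n) * x) := by
        rw [pow_succ]
        noncomm_ring
      rw [this]
      exact add_mem ih (sub_mem hx (mul_mem ih hx))
  have h2 : Tendsto (fun n : ℕ => 1 - (1 - x) ^ n) atTop (𝓝 (1 - 0)) :=
    tendsto_const_nhds.sub (tendsto_pow_atTop_nhds_zero_of_norm_lt_one h)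
  rw [sub_zero] at h2
  exact hD.mem_of_tendsto h2 (Eventually.of_forall h1)

lemma star_close {a s : BH} (hs : ‖s‖ ≤ 1) (ha : ‖a - s‖ ≤ 1 / 100) :
    ‖star a * a - star s * s‖ ≤ 1 / 40 ∧ ‖a * star a - s * star s‖ ≤ 1 / 40 := by
  have hna : ‖a‖ ≤ 101 / 100 := by
    calc ‖a‖ = ‖(a - s) + s‖ := by rw [sub_add_cancel]
      _ ≤ ‖a - s‖ + ‖s‖ := norm_add_le _ _
      _ ≤ 101 / 100 := by linarith
  have hst : ‖star a - star s‖ ≤ 1 / 100 := by rw [← star_sub, norm_star]; exact ha
  have hns : ‖star s‖ ≤ 1 := by rw [norm_star]; exact hs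
  have hnsa : ‖star a‖ ≤ 101 / 100 := by rw [norm_star]; exact hna
  have h0 := norm_nonneg a
  have h0' := norm_nonneg (star a)
  have h0s := norm_nonneg s
  have h0s' := norm_nonneg (star s)
  have h1 := norm_nonneg (a - s)
  have h2 := norm_nonneg (star a - star s)
  constructor
  · calc ‖star a * a - star s * s‖ = ‖(star a - star s) * a + star s * (a - s)‖ := by
          congr 1; noncomm_ring
      _ ≤ ‖star a - star s‖ * ‖a‖ + ‖star s‖ * ‖a - s‖ :=
          (norm_add_le _ _).trans (add_le_add (norm_mul_le _ _) (norm_mul_le _ _))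
      _ ≤ 1 / 100 * (101 / 100) + 1 * (1 / 100) := by gcongr
      _ ≤ 1 / 40 := by norm_num
  · calc ‖a * star a - s * star s‖ = ‖(a - s) * star a + s * (star a - star s)‖ := by
          congr 1; noncomm_ring
      _ ≤ ‖a - s‖ * ‖star a‖ + ‖s‖ * ‖star a - star s‖ :=
          (norm_add_le _ _).trans (add_le_add (norm_mul_le _ _) (norm_mul_le _ _))
      _ ≤ 1 / 100 * (101 / 100) + 1 * (1 / 100) := by gcongr
      _ ≤ 1 / 40 := by norm_num

lemma norm_s_le (b : Bool) : ‖s b‖ ≤ 1 := by
  have h1 : ‖star (s b) * s b‖ = ‖s b‖ * ‖s b‖ := CStarRing.norm_star_mul_self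
  rw [star_s_mul_s_self] at h1
  have h2 : ‖(1 : BH)‖ ≤ 1 := ContinuousLinearMap.norm_id_le
  nlinarith [norm_nonneg (s b)]

/-- the counterexample is not locally approximable by type I C*-algebras -/
theorem not_locallyTypeI_CA : ¬ LocallyTypeI CA := by
  classical
  intro h
  have hs : ∀ b, s b ∈ O2 := by
    intro b
    have := S_mem_O2 [b]
    rwa [S_cons, S_nil, mul_one] at this
  let g : C(unitInterval, ℝ) := ⟨fun t => (t : ℝ), by fun_prop⟩
  let f : Bool → CA := fun b => ⟨el g (s b), el_mem (hs b) rfl⟩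
  have hf1 : ∀ b, ev 1 (f b) = s b := by
    intro b
    show (((1 : unitInterval) : ℝ) : ℂ) • s b = s b
    simp
  obtain ⟨B, hBc, hBI, hBF⟩ := h {f false, f true} (1 / 100) (by norm_num)
  obtain ⟨y0, hy0, hy0'⟩ := hBF (f false) (by simp)
  obtain ⟨y1, hy1, hy1'⟩ := hBF (f true) (by simp)
  have hev : ∀ z : CA, ‖ev 1 z‖ ≤ ‖z‖ := fun z => NonUnitalStarAlgHom.norm_apply_le (ev 1) z
  have ha0 : ‖ev 1 y0 - s false‖ ≤ 1 / 100 := by
    have := (hev (f false - y0)).trans hy0'.le
    rw [map_sub, hf1, norm_sub_rev] at this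
    exact this
  have ha1 : ‖ev 1 y1 - s true‖ ≤ 1 / 100 := by
    have := (hev (f true - y1)).trans hy1'.le
    rw [map_sub, hf1, norm_sub_rev] at this
    exact this
  obtain ⟨p0, q0⟩ := star_close (norm_s_le false) ha0
  obtain ⟨p1, q1⟩ := star_close (norm_s_le true) ha1
  rw [star_s_mul_s_self] at p0 p1
  -- the closure of the image of `B`
  let D0 : NonUnitalStarSubalgebra ℂ BH := (B.map (ev 1)).topologicalClosure
  have hD0c : IsClosed (D0 : Set BH) := NonUnitalStarSubalgebra.isClosed_topologicalClosure _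
  have hD0 : ∀ b ∈ B, ev 1 b ∈ D0 := fun b hb =>
    NonUnitalStarSubalgebra.le_topologicalClosure _ ⟨b, hb, rfl⟩
  have h1D0 : (1 : BH) ∈ D0 := by
    refine one_mem_of_close D0 hD0c (star (ev 1 y0) * ev 1 y0)
      (mul_mem (star_mem (hD0 _ hy0)) (hD0 _ hy0)) ?_
    rw [norm_sub_rev]
    exact lt_of_le_of_lt p0 (by norm_num)
  let D : StarSubalgebra ℂ BH :=
    { carrier := D0
      mul_mem' := fun {a b} ha hb => mul_mem (S := NonUnitalStarSubalgebra ℂ BH) (s := D0) ha hb
      add_mem' := fun {a b} ha hb => add_mem (S := NonUnitalStarSubalgebra ℂ BH) (s := D0) ha hb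
      algebraMap_mem' := fun c => by
        rw [Algebra.algebraMap_eq_smul_one]
        exact SMulMemClass.smul_mem (S := NonUnitalStarSubalgebra ℂ BH) (s := D0) c h1D0
      star_mem' := fun {a} ha => star_mem (S := NonUnitalStarSubalgebra ℂ BH) (s := D0) ha }
  have hDc : IsClosed (D : Set BH) := hD0c
  let _ : CStarAlgebra D := StarSubalgebra.cstarAlgebra D (h_closed := hDc)
  have hnt : Nontrivial D := by
    refine ⟨⟨1, 0, fun h => ?_⟩⟩
    have h1 : (1 : BH) = 0 := congrArg Subtype.val h
    have h2 := congrArg (fun T : BH => T xi) h1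
    have h3 : xi = 0 := h2
    have h4 := norm_xi
    rw [h3, norm_zero] at h4
    exact zero_ne_one h4
  let j : B →⋆ₙₐ[ℂ] D :=
    { toFun := fun b => ⟨ev 1 b.1, hD0 _ b.2⟩
      map_smul' := fun c b => Subtype.ext (map_smul (ev 1) c b.1)
      map_zero' := Subtype.ext (map_zero (ev 1))
      map_add' := fun a b => Subtype.ext (map_add (ev 1) a.1 b.1)
      map_mul' := fun a b => Subtype.ext (map_mul (ev 1) a.1 b.1)
      map_star' := fun a => Subtype.ext (map_star (ev 1) a.1) }
  have hj : DenseRange j := by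
    rw [Metric.denseRange_iff]
    intro d r hr
    have h1 : (d : BH) ∈ closure ((B.map (ev 1) : NonUnitalStarSubalgebra ℂ BH) : Set BH) := d.2
    rw [Metric.mem_closure_iff] at h1
    obtain ⟨z, hz, hdz⟩ := h1 r hr
    obtain ⟨b, hb, rfl⟩ := hz
    exact ⟨⟨b, hb⟩, hdz⟩
  refine core hBI j hj ⟨ev 1 y0, hD0 _ hy0⟩ ⟨ev 1 y1, hD0 _ hy1⟩ ?_ ?_ ?_
  · show ‖star (ev 1 y0) * ev 1 y0 - 1‖ ≤ 1 / 10
    linarith
  · show ‖star (ev 1 y1) * ev 1 y1 - 1‖ ≤ 1 / 10
    linarith
  · show ‖ev 1 y0 * star (ev 1 y0) + ev 1 y1 * star (ev 1 y1) - 1‖ ≤ 1 / 10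
    calc ‖ev 1 y0 * star (ev 1 y0) + ev 1 y1 * star (ev 1 y1) - 1‖
        = ‖(ev 1 y0 * star (ev 1 y0) - s false * star (s false)) +
            (ev 1 y1 * star (ev 1 y1) - s true * star (s true))‖ := by
          congr 1
          rw [← s_sum]
          abel
      _ ≤ 1 / 40 + 1 / 40 := (norm_add_le _ _).trans (add_le_add q0 q1)
      _ ≤ 1 / 10 := by norm_num

end Pool.Agent.Helper83K9.TI
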